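import Pool.Agent.R334.EM7

/-!
# Full generic escape of mass fails

Over the field with two elements, with `P = t`, the quadratic irrational `θ` with
`θ ^ 2 = (1 + t ^ 2) θ + t` satisfies `e k n ≤ 9 / 10` for all `k ≥ 1` and all `n ≥ 2`. Hence for
`0 < ε ≤ 1 / 10` and every `n ≥ 2` no `k ≥ 1` has `e k n > 1 - ε`, so the density of the set of
these `k` is `0` and does not tend to `1`.

The continued fraction expansion (`pquot`), the period (`periodLength`, `periodStart`) and the
quotient `excess` are those of `Pool/Agent/R334/EMDefs.lean`, as is the construction of `θ` with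
the bound on `e k n` (found for the question on maximal escape of mass).
-/

set_option autoImplicit false

namespace Pool.Agent.Results.MP_3bedcc_nt.GenericEscapeFails

open Polynomial Filter Topology Pool.Agent.R334.EM

/-- The number `e k n` of the problem: the `excess` of the continued fraction expansion of
`θ * P ^ k`. -/
noncomputable def eMass {F : Type} [Field F] (P : F[X]) (θ : Kinf F) (k n : ℕ) : ℝ :=
  excess (pquot (θ * emb F P ^ k)) n

/-- The set `A` of natural numbers has natural density `d`: the numbers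
`|A ∩ {1, ..., m}| / m` tend to `d`. -/
def HasDensity (A : Set ℕ) (d : ℝ) : Prop :=
  Tendsto (fun m : ℕ => ((A ∩ Set.Icc 1 m).ncard : ℝ) / (m : ℝ)) atTop (𝓝 d)

/-- `θ` has full generic escape of mass with respect to the powers of `P`: for every `ε > 0` the
sets `{k | e k n > 1 - ε}`, `n > 1`, have natural densities, which tend to `1` as `n` tends to
infinity. -/
def FullGenericEscape {F : Type} [Field F] (P : F[X]) (θ : Kinf F) : Prop :=
  ∀ ε : ℝ, 0 < ε → ∃ d : ℕ → ℝ,
    (∀ n : ℕ, 1 < n → HasDensity {k : ℕ | 1 - ε < eMass P θ k n} (d n)) ∧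
    Tendsto d atTop (𝓝 1)

theorem result :
    (∃ θ : Kinf (ZMod 2),
      θ ^ 2 = (1 + tt (ZMod 2) ^ 2) * θ + tt (ZMod 2) ∧
      IsQuadraticIrrational θ ∧
      (∀ k : ℕ, ∃ l N : ℕ, IsPeriodFrom (pquot (θ * tt (ZMod 2) ^ k)) l N) ∧
      (∀ k n : ℕ, 1 ≤ k → 2 ≤ n → eMass (X : (ZMod 2)[X]) θ k n ≤ 9 / 10) ∧
      (∀ n : ℕ, 2 ≤ n → ∀ ε : ℝ, 0 < ε → ε ≤ 1 / 10 →
        HasDensity {k : ℕ | 1 - ε < eMass (X : (ZMod 2)[X]) θ k n} 0) ∧
      ¬ FullGenericEscape (X : (ZMod 2)[X]) θ) ∧
    ¬ ∀ (F : Type) [Field F] [Finite F] (P : F[X]) (θ : Kinf F),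
        Irreducible P → IsQuadraticIrrational θ → FullGenericEscape P θ := by
  have hq : IsQuadraticIrrational theta := by
    refine ⟨irr_theta, 1, 1 + X ^ 2, X, one_ne_zero, ?_⟩
    rw [map_one, emb_ff, emb_X, theta_eq]
    linear_combination ((1 + tt (ZMod 2) ^ 2) * theta + tt (ZMod 2)) * two_eq_zero
  have hb : ∀ k n : ℕ, 1 ≤ k → 2 ≤ n → eMass (X : (ZMod 2)[X]) theta k n ≤ 9 / 10 := by
    intro k n hk hn
    unfold eMass
    rw [emb_X, mul_comm]
    exact excess_Phi k hk n hn
  have hd : ∀ n : ℕ, 2 ≤ n → ∀ ε : ℝ, 0 < ε → ε ≤ 1 / 10 →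
      HasDensity {k : ℕ | 1 - ε < eMass (X : (ZMod 2)[X]) theta k n} 0 := by
    intro n hn ε _ hε
    have he : ∀ m : ℕ, ({k : ℕ | 1 - ε < eMass (X : (ZMod 2)[X]) theta k n} ∩ Set.Icc 1 m) = ∅ := by
      intro m
      rw [Set.eq_empty_iff_forall_notMem]
      rintro k ⟨hk1, hk2⟩
      have hk1' : 1 - ε < eMass (X : (ZMod 2)[X]) theta k n := hk1
      have := hb k n hk2.1 hn
      linarith
    unfold HasDensity
    simp only [he, Set.ncard_empty, Nat.cast_zero, zero_div]
    exact tendsto_const_nhds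
  have hf : ¬ FullGenericEscape (X : (ZMod 2)[X]) theta := by
    intro h
    obtain ⟨d, h1, h2⟩ := h (1 / 10) (by norm_num)
    have h3 : ∀ n : ℕ, 2 ≤ n → d n = 0 := fun n hn =>
      tendsto_nhds_unique (h1 n (by omega)) (hd n hn (1 / 10) (by norm_num) le_rfl)
    have h4 : Tendsto d atTop (𝓝 0) := by
      refine Tendsto.congr' ?_ tendsto_const_nhds
      filter_upwards [eventually_ge_atTop 2] with n hn
      exact (h3 n hn).symm
    exact one_ne_zero (tendsto_nhds_unique h2 h4)
  refine ⟨⟨theta, theta_eq, hq, fun k => ?_, hb, hd, hf⟩, ?_⟩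
  · rw [mul_comm]
    exact exists_period k
  · intro hall
    exact hf (hall (ZMod 2) X theta irreducible_X hq)

end Pool.Agent.Results.MP_3bedcc_nt.GenericEscapeFails
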